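import Pool.Agent.H73.ControlledProof

set_option autoImplicit false

namespace Pool.Agent.Results.MP_26bbbf_al.NotCrossedProduct

open Pool.Agent.H73.Controlled

/-- **Answer to Q1 (negative).** There is a ring `R`, strongly graded by the infinite cyclic
group and controlled, in which no component other than the identity component contains a unit
of `R`; in particular `R` is not a crossed product. -/
theorem result : ∃ (R : Type) (_ : Ring R) (𝒜 : Multiplicative ℤ → AddSubgroup R),
    IsGrading 𝒜 ∧ IsStrong 𝒜 ∧ IsControlled 𝒜 ∧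
      (∀ g : Multiplicative ℤ, g ≠ 1 → ∀ w : Rˣ, (w : R) ∉ 𝒜 g) ∧ ¬ IsCrossedProduct 𝒜 := by
  have hnu : ∀ g : Multiplicative ℤ, g ≠ 1 → ∀ w : (RR ℚ)ˣ, (w : RR ℚ) ∉ comp ℚ g := by
    intro g hg w hw
    exact no_unit ℚ g hg w hw (w⁻¹ : (RR ℚ)ˣ) w.mul_inv w.inv_mul
  refine ⟨RR ℚ, inferInstance, comp ℚ, isGrading_comp ℚ, isStrong_comp ℚ, ?_, hnu, ?_⟩
  · refine isControlled (isGrading_comp ℚ) (isStrong_comp ℚ) ?_ (simple_one ℚ) ?_
    · intro h0
      have := congrArg (DirectSum.coeRingHom (B ℚ)) h0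
      rw [map_one, map_zero] at this
      exact one_ne_zero this
    · intro g hg c hc d _ h1 h2
      exact no_unit ℚ g hg c hc d h1 h2
  · intro hcp
    obtain ⟨w, hw⟩ := hcp (Multiplicative.ofAdd 1)
    refine hnu (Multiplicative.ofAdd 1) ?_ w hw
    intro h
    have := congrArg Multiplicative.toAdd h
    simp at this

end Pool.Agent.Results.MP_26bbbf_al.NotCrossedProduct
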